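import Pool.Agent.H60.ACN.Targets

set_option autoImplicit false

namespace Pool.Agent.H82.ACN

open Pool.Agent.H60.W Pool.Agent.H60.ACN Filter Metric

theorem pigeon (s : ℕ → ℕ) (k : ℕ) (h0 : s 0 ≤ k + 1) (h1 : 1 ≤ s (k + 1))
    (hs : ∀ l, s (l + 1) ≤ s l) : ∃ l ≤ k, s (l + 1) = s l := by
  by_contra hcon
  push Not at hcon
  have key : ∀ l ≤ k + 1, s l + l ≤ s 0 := by
    intro l
    induction l with
    | zero => intro _; simp
    | succ l ih =>
      intro hl
      have h2 := ih (by omega)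
      have h3 := hcon l (by omega)
      have h4 := hs l
      omega
  have := key (k + 1) le_rfl
  omega

variable {K : Type} [MetricSpace K]

open Classical in
/-- the distance to the complement -/
noncomputable def fd (v : Set K) (x : K) : ℝ := if v = Set.univ then 1 else infDist x vᶜ

theorem fd_lip (v : Set K) (x y : K) : fd v x ≤ fd v y + dist x y := by
  unfold fd
  split_ifs
  · linarith [dist_nonneg (x := x) (y := y)]
  · exact infDist_le_infDist_add_dist

theorem fd_pos (v : Set K) (hv : IsOpen v) (x : K) : 0 < fd v x ↔ x ∈ v := by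
  unfold fd
  split_ifs with h
  · rw [h]
    exact ⟨fun _ => Set.mem_univ _, fun _ => one_pos⟩
  · rw [← hv.isClosed_compl.notMem_iff_infDist_pos (Set.nonempty_compl.2 h)]
    exact Set.notMem_compl_iff

theorem fd_ge (v : Set K) (x : K) (δ : ℝ) (h : ball x δ ⊆ v) : min 1 δ ≤ fd v x := by
  unfold fd
  split_ifs with h'
  · exact min_le_left _ _
  · refine (min_le_right _ _).trans ?_
    refine (le_infDist (Set.nonempty_compl.2 h')).2 fun y hy => ?_
    by_contra hlt
    push Not at hlt
    exact hy (h (by rw [mem_ball, dist_comm]; exact hlt))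

/-- the piece of `S` -/
def pc (V : Finset (Set K)) (γ : ℝ) (S : Finset (Set K)) : Set K :=
  {x | (∀ v ∈ S, 0 < fd v x) ∧ ∀ v ∈ S, ∀ w ∈ V, w ∉ S → fd w x + γ ≤ fd v x}

theorem pf_COL : T_COL := by
  classical
  intro K _ _ k hK ε hε
  rcases isEmpty_or_nonempty K with hE | hN
  · refine ⟨1, one_pos, fun _ => ∅, ?_, ?_⟩
    · ext x
      exact (hE.false x).elim
    · intro i
      exact ⟨fun P hP => absurd hP (Set.notMem_empty _),
        fun P hP => absurd hP (Set.notMem_empty _)⟩
  obtain ⟨t, -, htf, ht⟩ := (isCompact_univ (X := K)).finite_cover_balls (half_pos hε)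
  obtain ⟨V, hVo, hVc, hVr, hVd⟩ := hK ((fun x => ball x (ε / 2)) '' t) (htf.image _)
    (by rintro u ⟨x, -, rfl⟩; exact isOpen_ball)
    (by
      rw [Set.eq_univ_iff_forall]
      intro x
      obtain ⟨z, hz, hxz⟩ := Set.mem_iUnion₂.1 (ht (Set.mem_univ x))
      exact ⟨_, ⟨z, hz, rfl⟩, hxz⟩)
  obtain ⟨V', hV'V, hV'f, hV'c⟩ := (isCompact_univ (X := K)).elim_finite_subcover_image
    (b := V) (c := id) (fun v hv => hVo v hv) (by
      intro x hx
      rw [← hVc] at hx
      obtain ⟨v, hv, hxv⟩ := hx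
      exact Set.mem_iUnion₂.2 ⟨v, hv, hxv⟩)
  obtain ⟨δ, hδ, hLeb⟩ := lebesgue_number_lemma_of_metric_sUnion (isCompact_univ (X := K))
    (c := V') (fun v hv => hVo v (hV'V hv)) (by
      intro x hx
      obtain ⟨v, hv, hxv⟩ := Set.mem_iUnion₂.1 (hV'c hx)
      exact ⟨v, hv, hxv⟩)
  let W : Finset (Set K) := hV'f.toFinset
  have hW : ∀ v, v ∈ W ↔ v ∈ V' := fun v => hV'f.mem_toFinset
  have hk : (0 : ℝ) < k + 1 := by positivity
  have hg : 0 < min 1 δ := lt_min one_pos hδ
  set γ : ℝ := min 1 δ / (k + 1) with hγ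
  have hγ0 : 0 < γ := div_pos hg hk
  have hγk : γ * (k + 1) = min 1 δ := by rw [hγ]; field_simp
  refine ⟨γ, hγ0, fun i => {A | ∃ S : Finset (Set K), S ⊆ W ∧ S.card = (i : ℕ) + 1 ∧
    A = pc W γ S}, ?_, ?_⟩
  · rw [Set.eq_univ_iff_forall]
    intro x
    let S : ℕ → Finset (Set K) := fun l => W.filter fun v => 0 < fd v x ∧ γ * l ≤ fd v x
    have hS : ∀ l, S (l + 1) ⊆ S l := by
      intro l v hv
      rw [Finset.mem_filter] at hv ⊢
      refine ⟨hv.1, hv.2.1, le_trans ?_ hv.2.2⟩
      push_cast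
      nlinarith
    have h0 : (S 0).card ≤ k + 1 := by
      by_contra hcon
      push Not at hcon
      obtain ⟨F, hFS, hF⟩ := Finset.exists_subset_card_eq (s := S 0) (n := k + 2) (by omega)
      obtain ⟨v, hvF, hxv⟩ := hVd F (fun v hv => hV'V ((hW v).1
        (Finset.mem_filter.1 (hFS (Finset.mem_coe.1 hv))).1)) hF x
      have h1 := Finset.mem_filter.1 (hFS hvF)
      exact hxv ((fd_pos v (hVo v (hV'V ((hW v).1 h1.1))) x).1 h1.2.1)
    have h1 : 1 ≤ (S (k + 1)).card := by
      obtain ⟨v, hv, hbv⟩ := hLeb x (Set.mem_univ x)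
      have h2 := fd_ge v x δ hbv
      refine Finset.card_pos.2 ⟨v, Finset.mem_filter.2 ⟨(hW v).2 hv, lt_of_lt_of_le hg h2, ?_⟩⟩
      push_cast
      rw [hγk]
      exact h2
    obtain ⟨l, hl, hlS⟩ := pigeon (fun l => (S l).card) k h0 h1
      (fun l => Finset.card_le_card (hS l))
    have hEq : S (l + 1) = S l := Finset.eq_of_subset_of_card_le (hS l) hlS.ge
    have hmono : ∀ l, (S l).card ≤ (S 0).card := by
      intro l
      induction l with
      | zero => exact le_rfl
      | succ l ih => exact (Finset.card_le_card (hS l)).trans ih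
    have hmono' : ∀ m l, l ≤ m → (S m).card ≤ (S l).card := by
      intro m
      induction m with
      | zero => intro l hl; rw [Nat.le_zero.1 hl]
      | succ m ih =>
        intro l hl
        rcases Nat.lt_or_ge l (m + 1) with h | h
        · exact (Finset.card_le_card (hS m)).trans (ih l (by omega))
        · rw [le_antisymm h hl]
    have hc1 : 1 ≤ (S (l + 1)).card := h1.trans (hmono' (k + 1) (l + 1) (by omega))
    have hc2 : (S (l + 1)).card ≤ k + 1 := (hmono (l + 1)).trans h0
    refine Set.mem_iUnion.2 ⟨⟨(S (l + 1)).card - 1, by omega⟩, pc W γ (S (l + 1)),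
      ⟨S (l + 1), Finset.filter_subset _ _, by
        show (S (l + 1)).card = (S (l + 1)).card - 1 + 1
        omega, rfl⟩, ?_, ?_⟩
    · intro v hv
      exact (Finset.mem_filter.1 hv).2.1
    · intro v hv w hwW hw
      have hv2 := (Finset.mem_filter.1 hv).2.2
      rw [hEq] at hw
      have hw2 : fd w x ≤ γ * l := by
        by_contra hcon
        push Not at hcon
        refine hw (Finset.mem_filter.2 ⟨hwW, lt_of_le_of_lt (by positivity) hcon, hcon.le⟩)
      push_cast at hv2
      linarith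
  · intro i
    constructor
    · rintro P ⟨S, hSW, hSc, rfl⟩ Q ⟨S', hSW', hSc', rfl⟩ hne x hx y hy
      have hSS : S ≠ S' := fun h => hne (by rw [h])
      obtain ⟨v, hv, hv'⟩ : ∃ v ∈ S, v ∉ S' := by
        by_contra hcon
        push Not at hcon
        exact hSS (Finset.eq_of_subset_of_card_le hcon (by rw [hSc, hSc']))
      obtain ⟨w, hw, hw'⟩ : ∃ w ∈ S', w ∉ S := by
        by_contra hcon
        push Not at hcon
        exact hSS (Finset.eq_of_subset_of_card_le hcon (by rw [hSc, hSc'])).symm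
      have h1 := hx.2 v hv w (hSW' hw) hw'
      have h2 := hy.2 w hw v (hSW hv) hv'
      have h3 := fd_lip v x y
      have h4 := fd_lip w y x
      rw [dist_comm y x] at h4
      linarith
    · rintro P ⟨S, hSW, hSc, rfl⟩ x hx y hy
      obtain ⟨v, hv⟩ : S.Nonempty := Finset.card_pos.1 (by omega)
      have hvV : v ∈ V := hV'V ((hW v).1 (hSW hv))
      obtain ⟨u, ⟨z, -, rfl⟩, hvu⟩ := hVr v hvV
      have h1 : x ∈ ball z (ε / 2) := hvu ((fd_pos v (hVo v hvV) x).1 (hx.1 v hv))
      have h2 : y ∈ ball z (ε / 2) := hvu ((fd_pos v (hVo v hvV) y).1 (hy.1 v hv))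
      rw [mem_ball] at h1 h2
      have := dist_triangle_right x y z
      linarith

end Pool.Agent.H82.ACN
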